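import Pool.Agent.W973.CES.Defs

/-! Part COMPL of project CES: a satisfying assignment gives a matching. -/

set_option autoImplicit false

namespace Pool.Agent.W638.CES

open Pool.Agent.W973.CES Pool.Agent.NPC

theorem compl (h1 : S_VAL) (h2 : S_CYC) (h3 : S_MT) (h4 : S_MR) (h5 : S_WR) (h6 : S_STT) :
    S_COMPL := by
  intro φ hsat
  obtain ⟨st, hs1, hs2⟩ := h6 φ hsat
  have hNN : NN φ = 2 * (2 * n3 φ) := by
    unfold NN
    ring
  obtain ⟨_, hlen, hord⟩ := h1 φ
  obtain ⟨hperm, hval⟩ := h3 st (2 * n3 φ)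
  rw [← hNN] at hperm hval
  have hpt : ∀ x < NN φ, partner (mt st (NN φ)) (true, x) = fl st x := fun x hx =>
    (hval x hx).1
  have hpf : ∀ x < NN φ, partner (mt st (NN φ)) (false, x) = fl st x := fun x hx =>
    (hval x hx).2.1
  have hlt : ∀ x < NN φ, fl st x < NN φ := fun x hx => (hval x hx).2.2
  refine ⟨mt st (NN φ), h2 (red φ) _
    (fun a => if a.1 then rM φ st (partner (mt st (NN φ)) a)
      else rW φ st (partner (mt st (NN φ)) a)) ?_ ?_⟩
  · rw [hlen]
    exact hperm
  · rintro ⟨sa, xa⟩ ⟨sb, xb⟩ ha hb ⟨hs, hB⟩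
    rw [hlen] at ha hb
    have hs' : sa = sb := hs
    subst hs'
    have ha' : xa < NN φ := ha
    have hb' : xb < NN φ := hb
    cases sa
    · rw [hpf xa ha', hpf xb hb'] at hB
      have hL := ((hord xa ha' (fl st xb) (hlt xb hb') (fl st xa) (hlt xa ha')).2).mp hB
      show rW φ st (partner (mt st (NN φ)) (false, xb)) < rW φ st (partner (mt st (NN φ)) (false, xa))
      rw [hpf xa ha', hpf xb hb']
      exact h5 φ st hs2 xa ha' (fl st xb) (hlt xb hb') hL
    · rw [hpt xa ha', hpt xb hb'] at hB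
      have hL := ((hord xa ha' (fl st xb) (hlt xb hb') (fl st xa) (hlt xa ha')).1).mp hB
      show rM φ st (partner (mt st (NN φ)) (true, xb)) < rM φ st (partner (mt st (NN φ)) (true, xa))
      rw [hpt xa ha', hpt xb hb']
      exact h4 φ st hs1 xa ha' (fl st xb) (hlt xb hb') hL

end Pool.Agent.W638.CES
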